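import Mathlib
import Pool.Agent.W_MP_591444_an.Defs
import Pool.Agent.W_MP_591444_an.Proof

set_option autoImplicit false

open Pool.Agent.W_MP_591444_an

namespace Pool.Agent.Results.MP_591444_an.NotLocallyStein

/-- **Closed unital subalgebras of locally Stein algebras need not be locally Stein.**
There is a Frechet algebra `A` which is a Stein algebra, and is locally Stein, and which has a
closed unital subalgebra `B` which is not locally Stein. (In the proof `A` is the algebra of
entire functions on the plane.) -/
theorem result :
    ∃ (A : Type) (_ : CommRing A) (_ : Algebra ℂ A) (_ : UniformSpace A),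
      IsFrechetAlgebra A ∧ IsSteinAlgebra A ∧ IsLocallyStein A ∧
        ∃ B : Subalgebra ℂ A, IsClosed (B : Set A) ∧ ¬ IsLocallyStein B :=
  ⟨Entire, inferInstance, inferInstance, inferInstance, isFrechetAlgebra_Entire,
    isSteinAlgebra_Entire, isLocallyStein_Entire, subB, isClosed_subB,
    not_isLocallyStein_subB⟩

end Pool.Agent.Results.MP_591444_an.NotLocallyStein
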